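import Pool.Agent.Helper97.FS.Stmts

/-!
MP_c726b9_an, module CONV: the limit relation along an ultrafilter.
-/

set_option autoImplicit false

namespace Pool.Agent.Helper97.FS

open Finset MeasureTheory Filter Topology
open scoped ComplexConjugate
open Pool.Agent.Helper97.Sub

variable {d : ℕ}

/-! ### trigonometric polynomials -/

/-- `g` is a trigonometric polynomial of degree at most `N`. -/
def cvP (N : ℕ) (g : AddCircle (1 : ℝ) → ℂ) : Prop := ∃ c : ℤ → ℂ, ∀ ω, g ω = tp N c ω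

theorem cv_int_fourier (n : ℤ) :
    ∫ ω : AddCircle (1 : ℝ), fourier n ω ∂AddCircle.haarAddCircle = if n = 0 then 1 else 0 := by
  have h := congrFun (fourierCoeff_fourier (T := (1 : ℝ)) n) 0
  simp only [fourierCoeff, neg_zero, fourier_zero, one_smul] at h
  rw [h, Pi.single_apply]
  by_cases hn : n = 0
  · simp [hn]
  · simp [hn, Ne.symm hn]

theorem cvP_of_sum {ι : Type} (s : Finset ι) (c : ι → ℂ) (j : ι → ℤ) (N : ℕ)
    (hj : ∀ i ∈ s, |j i| ≤ N) : cvP N (fun ω => ∑ i ∈ s, c i * fourier (j i) ω) := by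
  classical
  refine ⟨fun m => ∑ i ∈ s with j i = m, c i, fun ω => ?_⟩
  unfold tp
  simp_rw [Finset.sum_mul]
  rw [← Finset.sum_fiberwise_of_maps_to (s := s) (t := Icc (-(N : ℤ)) N) (g := j)]
  · refine sum_congr rfl fun m _ => sum_congr rfl fun i hi => ?_
    rw [(mem_filter.1 hi).2]
  · intro i hi
    rw [mem_Icc]
    exact abs_le.1 (hj i hi)

theorem cvP_mul {N N' : ℕ} {g h : AddCircle (1 : ℝ) → ℂ} (hg : cvP N g) (hh : cvP N' h) :
    cvP (N + N') (fun ω => g ω * h ω) := by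
  obtain ⟨a, ha⟩ := hg
  obtain ⟨b, hb⟩ := hh
  obtain ⟨c, hc⟩ := cvP_of_sum (Icc (-(N : ℤ)) N ×ˢ Icc (-(N' : ℤ)) N')
    (fun p : ℤ × ℤ => a p.1 * b p.2) (fun p => p.1 + p.2) (N + N') (by
      rintro ⟨p, q⟩ h
      rw [mem_product, mem_Icc, mem_Icc] at h
      obtain ⟨⟨h1, h2⟩, h3, h4⟩ := h
      push_cast
      rw [abs_le]
      constructor <;> simp only at h1 h2 h3 h4 ⊢ <;> omega)
  refine ⟨c, fun ω => ?_⟩
  rw [← hc]
  beta_reduce
  rw [ha, hb, tp, tp, sum_mul_sum, sum_product]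
  refine sum_congr rfl fun i _ => sum_congr rfl fun j _ => ?_
  rw [fourier_add]
  ring

theorem cvP_conj {N : ℕ} {g : AddCircle (1 : ℝ) → ℂ} (hg : cvP N g) :
    cvP N (fun ω => conj (g ω)) := by
  obtain ⟨a, ha⟩ := hg
  obtain ⟨c, hc⟩ := cvP_of_sum (Icc (-(N : ℤ)) N) (fun i => conj (a i)) (fun i => -i) N (by
    intro i hi
    rw [mem_Icc] at hi
    rw [abs_neg, abs_le]
    exact hi)
  refine ⟨c, fun ω => ?_⟩
  rw [← hc]
  simp only [ha, tp, map_sum, map_mul]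
  refine sum_congr rfl fun i _ => ?_
  rw [fourier_neg]

theorem cvP_fourier (m : ℤ) : cvP m.natAbs (fun ω => fourier m ω) := by
  obtain ⟨c, hc⟩ := cvP_of_sum {m} (fun _ => 1) (fun i => i) m.natAbs (by
    intro i hi
    rw [mem_singleton] at hi
    subst hi
    rw [Int.natCast_natAbs])
  refine ⟨c, fun ω => ?_⟩
  rw [← hc]
  simp

theorem cvP_const (z : ℂ) : cvP 0 (fun _ => z) := by
  refine ⟨fun _ => z, fun ω => ?_⟩
  simp [tp]

theorem cv_zc_pow (ω : AddCircle (1 : ℝ)) (l : ℕ) : zc ω ^ l = fourier (-(l : ℤ)) ω := by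
  induction l with
  | zero => simp
  | succ l ih =>
    rw [pow_succ, ih, zc, ← fourier_neg, ← fourier_add]
    congr 2
    push_cast
    ring

theorem cvP_Ek (σ : Fin d → List (Fin d)) (G : List (Fin d) → ℂ) (w k : ℕ) (c : Fin d) :
    cvP (T σ k c).length (Ek σ G w k c) := by
  obtain ⟨b, hb⟩ := cvP_of_sum (range (T σ k c).length)
    (fun l => if l + w ≤ (T σ k c).length then G (((T σ k c).drop l).take w) else 0)
    (fun l => -(l : ℤ)) (T σ k c).length (by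
      intro i hi
      rw [mem_range] at hi
      rw [abs_neg, Nat.abs_cast]
      exact_mod_cast hi.le)
  refine ⟨b, fun ω => ?_⟩
  rw [← hb, Ek, TS, PS]
  refine sum_congr rfl fun l _ => ?_
  rw [cv_zc_pow]
  split_ifs <;> simp

theorem cvP_cont {N : ℕ} {g : AddCircle (1 : ℝ) → ℂ} (hg : cvP N g) : Continuous g := by
  obtain ⟨c, hc⟩ := hg
  have h : g = fun ω => ∑ j ∈ Icc (-(N : ℤ)) N, c j * fourier j ω := funext hc
  rw [h]
  refine continuous_finsetSum _ fun j _ => ?_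
  exact continuous_const.mul (map_continuous (fourier j))

theorem cv_integrable {g : AddCircle (1 : ℝ) → ℂ} (hg : Continuous g) :
    Integrable g AddCircle.haarAddCircle :=
  hg.integrable_of_hasCompactSupport (HasCompactSupport.of_compactSpace g)

theorem cvP_int {N : ℕ} {g : AddCircle (1 : ℝ) → ℂ} (hg : cvP N g) (m : ℤ) (hm : (N : ℤ) < |m|) :
    ∫ ω, g ω * fourier m ω ∂AddCircle.haarAddCircle = 0 := by
  obtain ⟨c, hc⟩ := hg
  have h : ∀ ω, g ω * fourier m ω = ∑ j ∈ Icc (-(N : ℤ)) N, c j * fourier (j + m) ω := by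
    intro ω
    rw [hc, tp, sum_mul]
    refine sum_congr rfl fun j _ => ?_
    rw [fourier_add, mul_assoc]
  simp_rw [h]
  rw [integral_finsetSum]
  · refine sum_eq_zero fun j hj => ?_
    rw [integral_const_mul, cv_int_fourier, if_neg, mul_zero]
    rw [mem_Icc] at hj
    intro h0
    rw [lt_abs] at hm
    omega
  · intro j _
    exact (cv_integrable (map_continuous (fourier (j + m)))).const_mul _

/-! ### lengths -/

theorem cv_len {σ : Fin d → List (Fin d)} {M : Matrix (Fin d) (Fin d) ℤ} {θ : ℝ}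
    {L f : Fin d → ℝ} (h : PFD σ M θ L f) (a : Fin d) :
    Tendsto (fun k : ℕ => ((T σ k a).length : ℝ) / θ ^ k) atTop (𝓝 (L a)) := by
  have h1 : ∀ k : ℕ, ((T σ k a).length : ℝ) / θ ^ k = ∑ b, (((M ^ k) b a : ℤ) : ℝ) / θ ^ k := by
    intro k
    have := length_T (σ := σ) (M := M) h.cntM k a
    rw [← Finset.sum_div]
    congr 1
    have h2 : (((T σ k a).length : ℤ) : ℝ) = ((ell M k a : ℤ) : ℝ) := by rw [this]
    rw [ell] at h2
    push_cast at h2
    exact h2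
  simp_rw [h1]
  have h3 : L a = ∑ b, f b * L a := by rw [← Finset.sum_mul, h.fsum, one_mul]
  rw [h3]
  exact tendsto_finsetSum _ fun b _ => h.lim a b

theorem cv_lk {σ : Fin d → List (Fin d)} {M : Matrix (Fin d) (Fin d) ℤ} {θ : ℝ}
    {L f : Fin d → ℝ} (h : PFD σ M θ L f) (j : Fin d → ℤ) :
    Tendsto (fun k : ℕ => (lk σ k j : ℝ) / θ ^ k) atTop (𝓝 (len L j)) := by
  have h1 : ∀ k : ℕ, (lk σ k j : ℝ) / θ ^ k =
      ∑ a, (((T σ k a).length : ℝ) / θ ^ k) * (j a : ℝ) := by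
    intro k
    rw [lk]
    push_cast
    rw [Finset.sum_div]
    refine sum_congr rfl fun a _ => ?_
    ring
  simp_rw [h1, len]
  exact tendsto_finsetSum _ fun a _ => (cv_len h a).mul_const _

theorem cv_lk_sub (σ : Fin d → List (Fin d)) (k : ℕ) (i j : Fin d → ℤ) :
    lk σ k (i - j) = lk σ k i - lk σ k j := by
  simp [lk, sub_mul, Finset.sum_sub_distrib]

theorem cv_lk_add (σ : Fin d → List (Fin d)) (k : ℕ) (i j : Fin d → ℤ) :
    lk σ k (i + j) = lk σ k i + lk σ k j := by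
  simp [lk, add_mul, Finset.sum_add_distrib]

theorem cv_lk_smul (σ : Fin d → List (Fin d)) (k : ℕ) (z : ℤ) (j : Fin d → ℤ) :
    lk σ k (z • j) = z * lk σ k j := by
  simp [lk, mul_assoc, Finset.mul_sum]

theorem cv_lk_zero (σ : Fin d → List (Fin d)) (k : ℕ) : lk σ k 0 = 0 := by simp [lk]

theorem cv_lk_neg (σ : Fin d → List (Fin d)) (k : ℕ) (j : Fin d → ℤ) :
    lk σ k (-j) = -lk σ k j := by
  simp [lk, Finset.sum_neg_distrib]

/-! ### limits along ultrafilters -/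

theorem cv_ulim (UU : Ultrafilter ℕ) (u : ℕ → ℂ) (R : ℝ) (hu : ∀ k, ‖u k‖ ≤ R) :
    ∃ x, Tendsto u UU (𝓝 x) := by
  obtain ⟨x, _, hx⟩ := (isCompact_closedBall (0 : ℂ) R).ultrafilter_le_nhds (UU.map u) (by
    rw [Filter.le_principal_iff]
    exact Filter.mem_map.2 (Filter.univ_mem' fun k => by
      simpa [Metric.mem_closedBall] using hu k))
  exact ⟨x, hx⟩

/-! ### Bessel and Riemann-Lebesgue -/

theorem cv_bessel {g : AddCircle (1 : ℝ) → ℂ} (hg : Continuous g) {R : ℝ} (hR : ∀ ω, ‖g ω‖ ≤ R)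
    (S : Finset ℤ) :
    ∑ n ∈ S, ‖∫ ω, g ω * fourier (-n) ω ∂AddCircle.haarAddCircle‖ ^ 2 ≤ R ^ 2 := by
  have hR0 : 0 ≤ R := (norm_nonneg _).trans (hR 0)
  set F : C(AddCircle (1 : ℝ), ℂ) := ⟨g, hg⟩ with hF
  have h1 := hasSum_sq_fourierCoeff (T := (1 : ℝ))
    (ContinuousMap.toLp (E := ℂ) 2 AddCircle.haarAddCircle ℂ F)
  have h2 : ∀ n : ℤ, fourierCoeff (ContinuousMap.toLp (E := ℂ) 2
      (AddCircle.haarAddCircle (T := (1 : ℝ))) ℂ F) n =
      ∫ ω, g ω * fourier (-n) ω ∂AddCircle.haarAddCircle := by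
    intro n
    rw [fourierCoeff_toLp, fourierCoeff]
    refine integral_congr_ae (ae_of_all _ fun ω => ?_)
    simp only [smul_eq_mul]
    rw [mul_comm]
    rfl
  simp_rw [h2] at h1
  have h3 : ∫ t : AddCircle (1 : ℝ), ‖(ContinuousMap.toLp (E := ℂ) 2
      (AddCircle.haarAddCircle (T := (1 : ℝ))) ℂ F) t‖ ^ 2 ∂AddCircle.haarAddCircle ≤ R ^ 2 := by
    have h4 : ∫ t : AddCircle (1 : ℝ), ‖(ContinuousMap.toLp (E := ℂ) 2
      (AddCircle.haarAddCircle (T := (1 : ℝ))) ℂ F) t‖ ^ 2 ∂AddCircle.haarAddCircle =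
        ∫ t : AddCircle (1 : ℝ), ‖g t‖ ^ 2 ∂AddCircle.haarAddCircle := by
      refine integral_congr_ae ?_
      filter_upwards [ContinuousMap.coeFn_toLp (p := 2) (𝕜 := ℂ)
        (AddCircle.haarAddCircle (T := (1 : ℝ))) F] with t ht
      rw [ht]
      rfl
    rw [h4]
    have h5 : ∫ t : AddCircle (1 : ℝ), ‖g t‖ ^ 2 ∂AddCircle.haarAddCircle ≤
        ∫ _t : AddCircle (1 : ℝ), R ^ 2 ∂AddCircle.haarAddCircle := by
      refine integral_mono ?_ (integrable_const _) fun t => ?_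
      · exact ((hg.norm.pow 2).integrable_of_hasCompactSupport
          (HasCompactSupport.of_compactSpace _))
      · exact pow_le_pow_left₀ (norm_nonneg _) (hR t) 2
    simpa using h5
  exact (sum_le_hasSum S (fun _ _ => sq_nonneg _) h1).trans h3

theorem cv_RL {ρ : AddCircle (1 : ℝ) → ℝ} (hρ : Integrable ρ AddCircle.haarAddCircle) (ε : ℝ)
    (hε : 0 < ε) : ∃ N : ℕ, ∀ n : ℤ, (N : ℤ) ≤ |n| →
      ‖∫ ω, (ρ ω : ℂ) * fourier n ω ∂AddCircle.haarAddCircle‖ < ε := by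
  have hc : Integrable (fun ω => (ρ ω : ℂ)) (AddCircle.haarAddCircle (T := (1 : ℝ))) := hρ.ofReal
  obtain ⟨g, hg1, hg2⟩ := hc.exists_boundedContinuous_integral_sub_le (half_pos hε)
  have hs : Summable (fun n : ℤ =>
      ‖∫ ω, g ω * fourier (-n) ω ∂AddCircle.haarAddCircle‖ ^ 2) :=
    summable_of_sum_le (fun _ => sq_nonneg _)
      (fun S => cv_bessel g.continuous (fun ω => g.norm_coe_le_norm ω) S)
  have ht := hs.tendsto_cofinite_zero
  have he := ht.eventually (Iio_mem_nhds (show (0 : ℝ) < (ε / 2) ^ 2 by positivity))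
  rw [Filter.eventually_cofinite] at he
  obtain ⟨N, hN⟩ := (he.image Int.natAbs).bddAbove
  refine ⟨N + 1, fun n hn => ?_⟩
  have h1 : ‖∫ ω, g ω * fourier n ω ∂AddCircle.haarAddCircle‖ ^ 2 < (ε / 2) ^ 2 := by
    by_contra hh
    have h2 := hN (Set.mem_image_of_mem Int.natAbs (show (-n) ∈ {n : ℤ | ¬
      ‖∫ ω, g ω * fourier (-n) ω ∂AddCircle.haarAddCircle‖ ^ 2 ∈ Set.Iio ((ε / 2) ^ 2)} from by
        rw [Set.mem_ofPred_eq, neg_neg]
        exact hh))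
    rw [Int.natAbs_neg] at h2
    have h5 : ((n.natAbs : ℕ) : ℤ) ≤ N := by exact_mod_cast h2
    rw [Int.natCast_natAbs] at h5
    push_cast at hn
    omega
  have h2 : ‖∫ ω, g ω * fourier n ω ∂AddCircle.haarAddCircle‖ < ε / 2 :=
    lt_of_pow_lt_pow_left₀ 2 (half_pos hε).le h1
  have hfn : ∀ ω : AddCircle (1 : ℝ), ‖(fourier n ω : ℂ)‖ = 1 := by
    intro ω
    rw [fourier_apply, Circle.norm_coe]
  have h3 : ∫ ω, (ρ ω : ℂ) * fourier n ω ∂AddCircle.haarAddCircle =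
      (∫ ω, ((ρ ω : ℂ) - g ω) * fourier n ω ∂AddCircle.haarAddCircle) +
        ∫ ω, g ω * fourier n ω ∂AddCircle.haarAddCircle := by
    rw [← integral_add]
    · refine integral_congr_ae (ae_of_all _ fun ω => ?_)
      ring
    · have := (hc.sub hg2).fourier_smul n
      refine this.congr (ae_of_all _ fun ω => ?_)
      simp [mul_comm]
    · have := hg2.fourier_smul n
      refine this.congr (ae_of_all _ fun ω => ?_)
      simp [mul_comm]
  rw [h3]
  have h4 : ‖∫ ω, ((ρ ω : ℂ) - g ω) * fourier n ω ∂AddCircle.haarAddCircle‖ ≤ ε / 2 := by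
    refine (norm_integral_le_integral_norm _).trans ?_
    refine le_trans (le_of_eq ?_) hg1
    refine integral_congr_ae (ae_of_all _ fun ω => ?_)
    simp only [norm_mul, hfn, mul_one]
  calc _ ≤ _ := norm_add_le _ _
    _ < ε := by linarith

/-! ### the functions of level `k` -/

/-- The product of level `k`. -/
noncomputable def cvψ (σ : Fin d → List (Fin d)) (θ : ℝ) (G : List (Fin d) → ℂ) (w : ℕ)
    (W : ℕ → AddCircle (1 : ℝ) → ℝ) (k : ℕ) (c e : Fin d) (ω : AddCircle (1 : ℝ)) : ℂ :=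
  ((θ ^ k : ℝ) : ℂ)⁻¹ * ((W ⌈θ ^ k⌉₊ ω : ℝ) : ℂ) * Ek σ G w k c ω * conj (Ek σ G w k e ω)

/-- The coefficient of level `k`. -/
noncomputable def cvK (σ : Fin d → List (Fin d)) (θ : ℝ) (G : List (Fin d) → ℂ) (w : ℕ)
    (W : ℕ → AddCircle (1 : ℝ) → ℝ) (k : ℕ) (m : Fin d → ℤ) (c e : Fin d) : ℂ :=
  ∫ ω, cvψ σ θ G w W k c e ω * fourier (-(lk σ k m)) ω ∂AddCircle.haarAddCircle

section level
variable {σ : Fin d → List (Fin d)} {θ : ℝ} {G : List (Fin d) → ℂ} {w : ℕ}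
  {ν : Measure (AddCircle (1 : ℝ))} {O : Set (AddCircle (1 : ℝ))} {C : ℝ}
  {ρ : AddCircle (1 : ℝ) → ℝ} {W : ℕ → AddCircle (1 : ℝ) → ℝ}

theorem cvψ_P (hKO : KO ν O C ρ W) (k : ℕ) (c e : Fin d) :
    cvP (2 * ⌈θ ^ k⌉₊ + (T σ k c).length + (T σ k e).length) (cvψ σ θ G w W k c e) := by
  have h1 : cvP (2 * ⌈θ ^ k⌉₊) (fun ω => ((W ⌈θ ^ k⌉₊ ω : ℝ) : ℂ)) := hKO.trig _
  have h2 := cvP_mul (cvP_mul (cvP_mul (cvP_const ((θ ^ k : ℝ) : ℂ)⁻¹) h1)
    (cvP_Ek σ G w k c)) (cvP_conj (cvP_Ek σ G w k e))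
  rw [zero_add] at h2
  exact h2

theorem cv_nk (hθ : 1 < θ) (k : ℕ) : 1 ≤ ⌈θ ^ k⌉₊ ∧ θ ^ k ≤ (⌈θ ^ k⌉₊ : ℝ) ∧
    (⌈θ ^ k⌉₊ : ℝ) ≤ 2 * θ ^ k := by
  have h1 : 1 ≤ θ ^ k := one_le_pow₀ hθ.le
  refine ⟨Nat.one_le_ceil_iff.2 (by linarith), Nat.le_ceil _, ?_⟩
  have := (Nat.ceil_lt_add_one (show (0 : ℝ) ≤ θ ^ k by linarith)).le
  linarith

theorem cvψ_bd (hθ : 1 < θ) (hKO : KO ν O C ρ W) {A : ℝ} (hA : 0 ≤ A)
    (hBD : ∀ s ∈ O, ∀ (k : ℕ) (c : Fin d) (ω : AddCircle (1 : ℝ)),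
      ‖Ek σ G w k c ω‖ ^ 2 ≤ A * θ ^ k * (1 + (θ ^ k) ^ 2 * ‖(fourier 1 (ω - s) : ℂ) - 1‖ ^ 2))
    (k : ℕ) (c e : Fin d) (ω : AddCircle (1 : ℝ)) : ‖cvψ σ θ G w W k c e ω‖ ≤ 9 * A := by
  obtain ⟨hn1, hn2, hn3⟩ := cv_nk hθ k
  have hp : 0 < θ ^ k := by positivity
  have hn : (0 : ℝ) < (⌈θ ^ k⌉₊ : ℝ) := by linarith
  have h1 : ∀ c : Fin d, W ⌈θ ^ k⌉₊ ω * ‖Ek σ G w k c ω‖ ^ 2 ≤ 9 * A * θ ^ k := by
    intro c
    have h2 := hKO.ker ⌈θ ^ k⌉₊ hn1 ω (‖Ek σ G w k c ω‖ ^ 2) (A * θ ^ k) (θ ^ k)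
      (by positivity) (fun s hs => hBD s hs k c ω)
    refine h2.trans ?_
    have h3 : (θ ^ k) ^ 2 / (⌈θ ^ k⌉₊ : ℝ) ^ 2 ≤ 1 := by
      rw [div_le_one (by positivity)]
      exact pow_le_pow_left₀ hp.le hn2 2
    have h4 : 8 * (θ ^ k) ^ 2 / (⌈θ ^ k⌉₊ : ℝ) ^ 2 ≤ 8 := by
      rw [mul_div_assoc]
      linarith
    have h5 : 0 ≤ A * θ ^ k := by positivity
    nlinarith
  obtain ⟨hW0, hW1⟩ := hKO.bd ⌈θ ^ k⌉₊ ω
  unfold cvψ
  rw [norm_mul, norm_mul, norm_mul, norm_inv, Complex.norm_real, Complex.norm_real,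
    RCLike.norm_conj, Real.norm_of_nonneg hp.le, Real.norm_of_nonneg hW0]
  have h6 : W ⌈θ ^ k⌉₊ ω * (‖Ek σ G w k c ω‖ * ‖Ek σ G w k e ω‖) ≤ 9 * A * θ ^ k := by
    have h7 : ‖Ek σ G w k c ω‖ * ‖Ek σ G w k e ω‖ ≤
        (‖Ek σ G w k c ω‖ ^ 2 + ‖Ek σ G w k e ω‖ ^ 2) / 2 := by
      nlinarith [sq_nonneg (‖Ek σ G w k c ω‖ - ‖Ek σ G w k e ω‖)]
    have h8 := mul_le_mul_of_nonneg_left h7 hW0
    have h9 := h1 c
    have h10 := h1 e
    nlinarith
  rw [show (θ ^ k)⁻¹ * W ⌈θ ^ k⌉₊ ω * ‖Ek σ G w k c ω‖ * ‖Ek σ G w k e ω‖ =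
    (W ⌈θ ^ k⌉₊ ω * (‖Ek σ G w k c ω‖ * ‖Ek σ G w k e ω‖)) / θ ^ k by
      field_simp]
  rw [div_le_iff₀ hp]
  exact h6

theorem cvK_bd {R : ℝ}
    (hb : ∀ (k : ℕ) (c e : Fin d) (ω : AddCircle (1 : ℝ)), ‖cvψ σ θ G w W k c e ω‖ ≤ R)
    (k : ℕ) (m : Fin d → ℤ) (c e : Fin d) : ‖cvK σ θ G w W k m c e‖ ≤ R := by
  unfold cvK
  have h := norm_integral_le_of_norm_le_const (μ := AddCircle.haarAddCircle (T := (1 : ℝ)))
    (f := fun ω => cvψ σ θ G w W k c e ω * fourier (-(lk σ k m)) ω) (C := R)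
    (ae_of_all _ fun ω => by
      rw [norm_mul, fourier_apply, Circle.norm_coe, mul_one]
      exact hb k c e ω)
  simpa using h

theorem cvK_zero (hθ : 1 < θ) (hKO : KO ν O C ρ W) {S : ℝ} (k : ℕ)
    (hS : ∀ a, ((T σ k a).length : ℝ) ≤ S * θ ^ k) (m : Fin d → ℤ) (c e : Fin d)
    (hm : (4 + 2 * S) * θ ^ k < |(lk σ k m : ℝ)|) : cvK σ θ G w W k m c e = 0 := by
  obtain ⟨hn1, hn2, hn3⟩ := cv_nk hθ k
  refine cvP_int (cvψ_P hKO k c e) _ ?_
  rw [abs_neg]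
  have h1 := hS c
  have h2 := hS e
  have h3 : ((2 * ⌈θ ^ k⌉₊ + (T σ k c).length + (T σ k e).length : ℕ) : ℝ) <
      |(lk σ k m : ℝ)| := by
    push_cast
    nlinarith
  have h4 : (((2 * ⌈θ ^ k⌉₊ + (T σ k c).length + (T σ k e).length : ℕ) : ℤ) : ℝ) <
      ((|lk σ k m| : ℤ) : ℝ) := by
    rw [Int.cast_abs]
    exact_mod_cast h3
  exact_mod_cast h4

end level

/-- frequencies far from zero -/
theorem cv_lk_low {σ : Fin d → List (Fin d)} (k : ℕ) (j : Fin d → ℤ) (hj : 0 ≤ j ∨ j ≤ 0)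
    (a : Fin d) : |(j a : ℝ)| * ((T σ k a).length : ℝ) ≤ |(lk σ k j : ℝ)| := by
  have h0 : ∀ i : Fin d → ℤ, 0 ≤ i →
      |(i a : ℝ)| * ((T σ k a).length : ℝ) ≤ |(lk σ k i : ℝ)| := by
    intro i hi
    have h1 : (0 : ℝ) ≤ (i a : ℝ) := by exact_mod_cast hi a
    rw [abs_of_nonneg h1]
    refine le_trans ?_ (le_abs_self _)
    rw [lk]
    push_cast
    refine Finset.single_le_sum (f := fun b => (i b : ℝ) * ((T σ k b).length : ℝ))
      (fun b _ => ?_) (mem_univ a)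
    have h2 : (0 : ℝ) ≤ (i b : ℝ) := by exact_mod_cast hi b
    positivity
  rcases hj with hj | hj
  · exact h0 j hj
  · have h1 := h0 (-j) (by simpa using hj)
    rw [cv_lk_neg] at h1
    simpa using h1

theorem cv_lk_up {σ : Fin d → List (Fin d)} {θ S : ℝ} (k : ℕ) (j : Fin d → ℤ)
    (hS : ∀ a, ((T σ k a).length : ℝ) ≤ S * θ ^ k) :
    |(lk σ k j : ℝ)| ≤ (∑ a, |(j a : ℝ)|) * S * θ ^ k := by
  rw [lk]
  push_cast
  refine (Finset.abs_sum_le_sum_abs _ _).trans ?_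
  rw [Finset.sum_mul, Finset.sum_mul]
  refine sum_le_sum fun a _ => ?_
  rw [abs_mul, mul_assoc, Nat.abs_cast]
  exact mul_le_mul_of_nonneg_left (hS a) (abs_nonneg _)

theorem st_CONV (hGF : ST_GF) (hIDN : ST_IDN) : ST_CONV := by
  intro d σ M θ L f gam hD G w ν hCor O C ρ W hKO hBDO
  have hθ : 1 < θ := hD.one_lt
  have hgam := hGF d σ M θ L f gam hD
  have hP : PFD σ M θ L f := hD.toPFD
  obtain ⟨A, hA, hBD⟩ := hBDO
  have hψ := cvψ_bd (σ := σ) (G := G) (w := w) hθ hKO hA hBD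
  have hKb := cvK_bd (σ := σ) (θ := θ) (G := G) (w := w) (W := W) hψ
  -- the limits
  set UU : Ultrafilter ℕ := Filter.hyperfilter ℕ with hUU
  have hU : (UU : Filter ℕ) ≤ atTop := Nat.hyperfilter_le_atTop
  have hlim : ∀ (m : Fin d → ℤ) (c e : Fin d), ∃ x,
      Tendsto (fun k => cvK σ θ G w W k m c e) UU (𝓝 x) :=
    fun m c e => cv_ulim UU _ (9 * A) fun k => hKb k m c e
  choose K hK using hlim
  -- lengths
  set S : ℝ := (∑ a, L a) + 1 with hSdef
  have hS1 : ∀ a, L a < S := by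
    intro a
    have := Finset.single_le_sum (f := L) (fun b _ => (hD.Lpos b).le) (mem_univ a)
    linarith
  have hSpos : 0 < S := by
    have := Finset.sum_nonneg (f := L) (s := univ) (fun b _ => (hD.Lpos b).le)
    linarith
  have hE : ∀ᶠ k : ℕ in atTop, ∀ a, L a / 2 * θ ^ k ≤ ((T σ k a).length : ℝ) ∧
      ((T σ k a).length : ℝ) ≤ S * θ ^ k := by
    rw [Filter.eventually_all]
    intro a
    have h1 := (cv_len hP a).eventually (Ioo_mem_nhds (show L a / 2 < L a by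
      linarith [hD.Lpos a]) (hS1 a))
    filter_upwards [h1] with k hk
    have hp : 0 < θ ^ k := by positivity
    rw [lt_div_iff₀ hp, div_lt_iff₀ hp] at hk
    exact ⟨hk.1.le, hk.2.le⟩
  set U : AddSubgroup (Fin d → ℤ) :=
    { carrier := {u | ∀ᶠ k : ℕ in UU, lk σ k u = 0}
      add_mem' := by
        intro a b ha hb
        rw [Set.mem_ofPred_eq] at ha hb ⊢
        filter_upwards [ha, hb] with k h1 h2
        rw [cv_lk_add, h1, h2, add_zero]
      zero_mem' := by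
        rw [Set.mem_ofPred_eq]
        exact Filter.Eventually.of_forall fun k => cv_lk_zero σ k
      neg_mem' := by
        intro a ha
        rw [Set.mem_ofPred_eq] at ha ⊢
        filter_upwards [ha] with k h1
        rw [cv_lk_neg, h1, neg_zero] } with hUdef
  have hUmem : ∀ u, u ∈ U ↔ ∀ᶠ k : ℕ in UU, lk σ k u = 0 := fun u => Iff.rfl
  -- support of the limits
  have hsupp : ∀ m, 4 + 2 * S < |len L m| → K m = 0 := by
    intro m hm
    funext c e
    have h1 : ∀ᶠ k : ℕ in atTop, cvK σ θ G w W k m c e = 0 := by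
      have h2 := ((cv_lk hP m).abs).eventually (Ioi_mem_nhds hm)
      filter_upwards [hE, h2] with k hk hk2
      have hp : 0 < θ ^ k := by positivity
      refine cvK_zero hθ hKO k (fun a => (hk a).2) m c e ?_
      rw [abs_div, abs_of_pos hp, lt_div_iff₀ hp] at hk2
      exact hk2
    have h3 : Tendsto (fun k => cvK σ θ G w W k m c e) UU (𝓝 0) :=
      tendsto_const_nhds.congr' ((h1.filter_mono hU).mono fun k hk => hk.symm)
    exact tendsto_nhds_unique (hK m c e) h3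
  -- the relation
  have hrel : ∀ j1 : Fin d → ℤ, Tendsto (fun k : ℕ =>
      ∫ ω, (ρ ω : ℂ) * fourier (-(lk σ k j1)) ω ∂AddCircle.haarAddCircle) UU
        (𝓝 (∑ᶠ j : Fin d → ℤ, ∑ c, ∑ e, (gam c e j : ℂ) * K (j1 - j) c e)) := by
    intro j1
    have hB : ∃ B : ℕ, ∀ a, (4 + 2 * S) + (∑ a, |(j1 a : ℝ)|) * S < B * (L a / 2) := by
      have h1 : ∀ a, ∃ B : ℕ, ((4 + 2 * S) + (∑ a, |(j1 a : ℝ)|) * S) / (L a / 2) < B :=
        fun a => exists_nat_gt _
      choose B hB using h1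
      refine ⟨∑ a, B a, fun a => ?_⟩
      have h2 := hB a
      have hLa : 0 < L a / 2 := by linarith [hD.Lpos a]
      rw [div_lt_iff₀ hLa] at h2
      refine h2.trans_le (mul_le_mul_of_nonneg_right ?_ hLa.le)
      exact_mod_cast Finset.single_le_sum (f := B) (fun b _ => Nat.zero_le _) (mem_univ a)
    obtain ⟨B, hB⟩ := hB
    set F : Finset (Fin d → ℤ) := Finset.Icc (fun _ => -(B : ℤ)) (fun _ => (B : ℤ)) with hF
    have hout : ∀ j ∉ F, (0 ≤ j ∨ j ≤ 0) → ∀ k : ℕ, (∀ a, L a / 2 * θ ^ k ≤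
        ((T σ k a).length : ℝ) ∧ ((T σ k a).length : ℝ) ≤ S * θ ^ k) →
        (4 + 2 * S) * θ ^ k < |(lk σ k (j1 - j) : ℝ)| := by
      intro j hj hj0 k hk
      have hp : 0 < θ ^ k := by positivity
      have h1 : ∃ a, (B : ℤ) < |j a| := by
        by_contra hno
        push Not at hno
        apply hj
        rw [hF, Finset.mem_Icc]
        exact ⟨fun a => (abs_le.1 (hno a)).1, fun a => (abs_le.1 (hno a)).2⟩
      obtain ⟨a, ha⟩ := h1
      have ha' : (B : ℝ) < |(j a : ℝ)| := by exact_mod_cast ha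
      have h2 := cv_lk_low (σ := σ) k j hj0 a
      have h3 := cv_lk_up (σ := σ) k j1 (fun a => (hk a).2)
      have h4 : |(lk σ k j : ℝ)| - |(lk σ k j1 : ℝ)| ≤ |(lk σ k (j1 - j) : ℝ)| := by
        rw [cv_lk_sub]
        push_cast
        rw [abs_sub_comm]
        exact abs_sub_abs_le_abs_sub _ _
      have h5 : (B : ℝ) * (L a / 2 * θ ^ k) ≤ |(j a : ℝ)| * ((T σ k a).length : ℝ) :=
        mul_le_mul ha'.le (hk a).1 (by have := hD.Lpos a; positivity) (abs_nonneg _)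
      have h6 := mul_lt_mul_of_pos_right (hB a) hp
      nlinarith
    have hzero : ∀ j ∉ F, ∀ k : ℕ, (∀ a, L a / 2 * θ ^ k ≤
        ((T σ k a).length : ℝ) ∧ ((T σ k a).length : ℝ) ≤ S * θ ^ k) → ∀ c e,
        (gam c e j : ℂ) * cvK σ θ G w W k (j1 - j) c e = 0 := by
      intro j hj k hk c e
      by_cases hg : gam c e j = 0
      · rw [hg]; simp
      · rw [cvK_zero hθ hKO k (fun a => (hk a).2) (j1 - j) c e
          (hout j hj (hgam.supp c e j hg) k hk), mul_zero]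
    have hzero' : ∀ j ∉ F, ∀ c e, (gam c e j : ℂ) * K (j1 - j) c e = 0 := by
      intro j hj c e
      have h1 : Tendsto (fun k => (gam c e j : ℂ) * cvK σ θ G w W k (j1 - j) c e) UU
          (𝓝 ((gam c e j : ℂ) * K (j1 - j) c e)) := (hK (j1 - j) c e).const_mul _
      have h2 : Tendsto (fun k => (gam c e j : ℂ) * cvK σ θ G w W k (j1 - j) c e) UU (𝓝 0) :=
        tendsto_const_nhds.congr' ((hE.filter_mono hU).mono fun k hk =>
          (hzero j hj k hk c e).symm)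
      exact tendsto_nhds_unique h1 h2
    have hfs : ∑ᶠ j : Fin d → ℤ, ∑ c, ∑ e, (gam c e j : ℂ) * K (j1 - j) c e =
        ∑ j ∈ F, ∑ c, ∑ e, (gam c e j : ℂ) * K (j1 - j) c e := by
      refine finsum_eq_sum_of_support_subset _ fun j hj => ?_
      by_contra hjF
      apply hj
      exact sum_eq_zero fun c _ => sum_eq_zero fun e _ => hzero' j hjF c e
    rw [hfs]
    have hb : Tendsto (fun k => ∑ j ∈ F, ∑ c, ∑ e,
        (gam c e j : ℂ) * cvK σ θ G w W k (j1 - j) c e) UU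
        (𝓝 (∑ j ∈ F, ∑ c, ∑ e, (gam c e j : ℂ) * K (j1 - j) c e)) :=
      tendsto_finsetSum _ fun j _ => tendsto_finsetSum _ fun c _ => tendsto_finsetSum _
        fun e _ => (hK (j1 - j) c e).const_mul _
    obtain ⟨C1, hC1⟩ := hIDN d σ M θ L f gam hD G w ν hCor
    have hkey : ∀ k : ℕ, (∀ a, L a / 2 * θ ^ k ≤
        ((T σ k a).length : ℝ) ∧ ((T σ k a).length : ℝ) ≤ S * θ ^ k) →
        ‖(∫ ω, ((W ⌈θ ^ k⌉₊ ω : ℝ) : ℂ) * fourier (-(lk σ k j1)) ω ∂ν) - ∑ j ∈ F, ∑ c, ∑ e,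
          (gam c e j : ℂ) * cvK σ θ G w W k (j1 - j) c e‖ ≤ C1 / Real.sqrt (θ ^ k) := by
      intro k hk
      have hp : 0 < θ ^ k := by positivity
      obtain ⟨φ, hφ⟩ := cvP_mul (hKO.trig ⌈θ ^ k⌉₊) (cvP_fourier (-(lk σ k j1)))
      have h1 := hC1 k _ φ 1 (fun ω => by
        rw [← hφ]
        beta_reduce
        rw [norm_mul, fourier_apply, Circle.norm_coe, mul_one, Complex.norm_real,
          Real.norm_of_nonneg (hKO.bd _ ω).1]
        exact (hKO.bd _ ω).2)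
      simp_rw [← hφ] at h1
      rw [mul_one] at h1
      have h2 : ∀ (j : Fin d → ℤ) (c e : Fin d), (gam c e j : ℂ) * ((θ ^ k : ℝ) : ℂ)⁻¹ *
          ∫ ω, ((W ⌈θ ^ k⌉₊ ω : ℝ) : ℂ) * fourier (-(lk σ k j1)) ω * Ek σ G w k c ω *
            conj (Ek σ G w k e ω) * fourier (lk σ k j) ω ∂AddCircle.haarAddCircle =
          (gam c e j : ℂ) * cvK σ θ G w W k (j1 - j) c e := by
        intro j c e
        rw [mul_assoc, ← integral_const_mul, cvK]
        congr 1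
        refine integral_congr_ae (ae_of_all _ fun ω => ?_)
        simp only [cvψ]
        rw [cv_lk_sub, neg_sub, sub_eq_add_neg, fourier_add]
        ring
      simp_rw [h2] at h1
      rw [finsum_eq_sum_of_support_subset (s := F)] at h1
      · exact h1
      · intro j hj
        by_contra hjF
        apply hj
        exact sum_eq_zero fun c _ => sum_eq_zero fun e _ => hzero j hjF k hk c e
    have hdiff : Tendsto (fun k : ℕ =>
        (∫ ω, (ρ ω : ℂ) * fourier (-(lk σ k j1)) ω ∂AddCircle.haarAddCircle) -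
          ∑ j ∈ F, ∑ c, ∑ e, (gam c e j : ℂ) * cvK σ θ G w W k (j1 - j) c e) atTop (𝓝 0) := by
      rw [Metric.tendsto_nhds]
      intro ε hε
      obtain ⟨n₀, hn₀⟩ := hKO.conv (ε / 2) (half_pos hε)
      have hpow : Tendsto (fun k : ℕ => θ ^ k) atTop atTop := tendsto_pow_atTop_atTop_of_one_lt hθ
      have h1 : ∀ᶠ k : ℕ in atTop, (n₀ : ℝ) ≤ θ ^ k := hpow.eventually_ge_atTop _
      have h2 : Tendsto (fun k : ℕ => C1 / Real.sqrt (θ ^ k)) atTop (𝓝 0) :=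
        (Real.tendsto_sqrt_atTop.comp hpow).const_div_atTop C1
      have h3 := h2.eventually (Iio_mem_nhds (half_pos hε))
      filter_upwards [h1, h3, hE] with k hk1 hk3 hkE
      rw [dist_zero_right]
      have h4 := hkey k hkE
      have h5 := hn₀ ⌈θ ^ k⌉₊ (by exact_mod_cast hk1.trans (Nat.le_ceil _)) (-(lk σ k j1))
      have h6 : (∫ ω, (ρ ω : ℂ) * fourier (-(lk σ k j1)) ω ∂AddCircle.haarAddCircle) -
          ∑ j ∈ F, ∑ c, ∑ e, (gam c e j : ℂ) * cvK σ θ G w W k (j1 - j) c e =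
          -((∫ ω, ((W ⌈θ ^ k⌉₊ ω : ℝ) : ℂ) * fourier (-(lk σ k j1)) ω ∂ν) -
            ∫ ω, (ρ ω : ℂ) * fourier (-(lk σ k j1)) ω ∂AddCircle.haarAddCircle) +
          ((∫ ω, ((W ⌈θ ^ k⌉₊ ω : ℝ) : ℂ) * fourier (-(lk σ k j1)) ω ∂ν) -
            ∑ j ∈ F, ∑ c, ∑ e, (gam c e j : ℂ) * cvK σ θ G w W k (j1 - j) c e) := by ring
      rw [h6]
      refine (norm_add_le _ _).trans_lt ?_
      rw [norm_neg]
      linarith
    have hsum := (hdiff.mono_left hU).add hb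
    rw [zero_add] at hsum
    refine hsum.congr fun k => ?_
    ring
  refine ⟨U, K, fun j1 => ∑ᶠ j : Fin d → ℤ, ∑ c, ∑ e, (gam c e j : ℂ) * K (j1 - j) c e,
    4 + 2 * S, ?_⟩
  refine { nn := by positivity, Ulen := ?_, sat := ?_, inv := ?_, supp := hsupp, bess := ?_,
           rel := fun _ => rfl, Dsupp := ?_, D0 := ?_ }
  · -- Ulen
    intro u hu
    rw [hUmem] at hu
    have h1 := (cv_lk hP u).mono_left hU
    have h2 : Tendsto (fun k : ℕ => (lk σ k u : ℝ) / θ ^ k) UU (𝓝 0) :=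
      tendsto_const_nhds.congr' (hu.mono fun k hk => by simp [hk])
    exact tendsto_nhds_unique h1 h2
  · -- sat
    intro z u hz hu
    rw [hUmem] at hu ⊢
    filter_upwards [hu] with k hk
    rw [cv_lk_smul] at hk
    exact (mul_eq_zero.1 hk).resolve_left hz
  · -- inv
    intro m u hu
    rw [hUmem] at hu
    funext c e
    refine tendsto_nhds_unique (hK (m + u) c e) ((hK m c e).congr' ?_)
    filter_upwards [hu] with k hk
    rw [cvK, cvK, cv_lk_add, hk, add_zero]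
  · -- bess
    refine ⟨(9 * A) ^ 2, fun F hF a b => ?_⟩
    have h1 : ∀ᶠ k : ℕ in UU, ∀ m ∈ F, ∀ m' ∈ F, lk σ k m = lk σ k m' → m = m' := by
      rw [Filter.eventually_all_finset]
      intro m hm
      rw [Filter.eventually_all_finset]
      intro m' hm'
      by_cases h : m = m'
      · exact Filter.Eventually.of_forall fun _ _ => h
      · have h2 : ¬ (m - m' ∈ U) := fun h3 => h (hF m hm m' hm' h3)
        rw [hUmem, ← Ultrafilter.eventually_not] at h2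
        filter_upwards [h2] with k hk hk2
        exact absurd (by rw [cv_lk_sub, hk2, sub_self]) hk
    have h2 : Tendsto (fun k => ∑ m ∈ F, ‖cvK σ θ G w W k m a b‖ ^ 2) UU
        (𝓝 (∑ m ∈ F, ‖K m a b‖ ^ 2)) :=
      tendsto_finsetSum _ fun m _ => ((hK m a b).norm).pow 2
    refine le_of_tendsto h2 ?_
    filter_upwards [h1] with k hk
    have h3 := cv_bessel (cvP_cont (cvψ_P (σ := σ) (θ := θ) (G := G) (w := w) hKO k a b))
      (hψ k a b) (F.image (lk σ k))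
    rw [Finset.sum_image (fun m hm m' hm' h => hk m hm m' hm' h)] at h3
    exact h3
  · -- Dsupp
    intro j1 hj1
    refine tendsto_nhds_unique (hrel j1) ?_
    refine Tendsto.mono_left ?_ hU
    rw [Metric.tendsto_atTop]
    intro ε hε
    obtain ⟨N, hN⟩ := cv_RL hKO.int ε hε
    have h1 : Tendsto (fun k : ℕ => |(lk σ k j1 : ℝ)|) atTop atTop := by
      have h2 := (cv_lk hP j1).abs
      have h3 : Tendsto (fun k : ℕ => θ ^ k) atTop atTop := tendsto_pow_atTop_atTop_of_one_lt hθ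
      have h4 := h2.pos_mul_atTop (abs_pos.2 hj1) h3
      refine h4.congr fun k => ?_
      have hp : 0 < θ ^ k := by positivity
      rw [abs_div, abs_of_pos hp]
      field_simp
    obtain ⟨k0, hk0⟩ := (Filter.tendsto_atTop_atTop.1 h1) N
    refine ⟨k0, fun k hk => ?_⟩
    rw [dist_zero_right]
    refine hN _ ?_
    rw [abs_neg]
    have h5 := hk0 k hk
    have h6 : ((N : ℤ) : ℝ) ≤ ((|lk σ k j1| : ℤ) : ℝ) := by
      rw [Int.cast_abs]
      exact_mod_cast h5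
    exact_mod_cast h6
  · -- D0
    have h1 := hrel 0
    have h2 : Tendsto (fun k : ℕ =>
        ∫ ω, (ρ ω : ℂ) * fourier (-(lk σ k 0)) ω ∂AddCircle.haarAddCircle) UU
        (𝓝 (∫ ω, (ρ ω : ℂ) ∂AddCircle.haarAddCircle)) := by
      refine tendsto_const_nhds.congr fun k => ?_
      simp [cv_lk_zero]
    have h3 := tendsto_nhds_unique h1 h2
    show (∑ᶠ j : Fin d → ℤ, ∑ c, ∑ e, (gam c e j : ℂ) * K (0 - j) c e) ≠ 0
    rw [h3, integral_complex_ofReal]
    have := hKO.pos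
    exact_mod_cast this.ne'

end Pool.Agent.Helper97.FS
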